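import Mathlib

/-!
# Monoids satisfying `x ^ (m + 1) = x`, and congruence classes which are not regular
-/

set_option autoImplicit false

namespace Pool.Agent.K7x.Brz

section Mon

variable {S : Type*} [Monoid S]

/-- `c` lies in the two-sided ideal generated by `a` -/
def JLe (c a : S) : Prop := ∃ p q : S, c = p * a * q

theorem JLe.refl (a : S) : JLe a a := ⟨1, 1, by simp⟩

theorem JLe.trans {a b c : S} (h : JLe a b) (h' : JLe b c) : JLe a c := by
  obtain ⟨p, q, rfl⟩ := h
  obtain ⟨r, s, rfl⟩ := h'
  exact ⟨p * r, s * q, by simp only [mul_assoc]⟩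

theorem jle_swap {k : ℕ} (h : ∀ x : S, x ^ (k + 2) = x) (x y : S) : JLe (x * y) (y * x) := by
  refine ⟨x, (y * x) ^ k * y, ?_⟩
  have h1 : ∀ n : ℕ, (x * y) ^ (n + 1) = x * (y * x) ^ n * y := by
    intro n
    induction n with
    | zero => simp
    | succ n ih =>
      rw [pow_succ, ih, pow_succ]
      simp only [mul_assoc]
  have h2 := h1 (k + 1)
  rw [h, pow_succ'] at h2
  calc x * y = x * (y * x * (y * x) ^ k) * y := h2
    _ = _ := by simp only [mul_assoc]

theorem jle_mul {k : ℕ} (h : ∀ x : S, x ^ (k + 2) = x) {c a b : S} (ha : JLe c a)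
    (hb : JLe c b) : JLe c (a * b) := by
  obtain ⟨p, q, hpq⟩ := ha
  obtain ⟨r, s, hrs⟩ := hb
  have h1 : JLe c (c * c) := by
    refine ⟨1, c ^ k, ?_⟩
    have := h c
    rw [pow_add, pow_two] at this
    rw [one_mul]
    calc c = c ^ k * (c * c) := this.symm
      _ = c * c * c ^ k := by
        rw [← pow_two, ← pow_add, ← pow_add, add_comm]
  have h2 : JLe (c * c) (b * (s * p * a)) := by
    refine ⟨r, q, ?_⟩
    calc c * c = (r * b * s) * (p * a * q) := by rw [← hpq, ← hrs]
      _ = _ := by simp only [mul_assoc]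
  have h3 : JLe (b * (s * p * a)) ((s * p * a) * b) := jle_swap h _ _
  have h4 : JLe ((s * p * a) * b) (a * b) := ⟨s * p, 1, by simp only [mul_assoc, mul_one]⟩
  exact h1.trans (h2.trans (h3.trans h4))

theorem pow_right_inv {k : ℕ} (h : ∀ x : S, x ^ (k + 2) = x) {e a b : S} (hae : a * e = a)
    (hab : a * b = e) : a ^ (k + 1) = e := by
  have h1 : a ^ (k + 1) * a = a := by rw [← pow_succ]; exact h a
  calc a ^ (k + 1) = a ^ (k + 1) * e := by
        rw [pow_succ, mul_assoc, hae]
    _ = a ^ (k + 1) * (a * b) := by rw [hab]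
    _ = a ^ (k + 1) * a * b := by rw [mul_assoc]
    _ = a * b := by rw [h1]
    _ = e := hab

theorem key {k : ℕ} (h : ∀ x : S, x ^ (k + 2) = x) {e w : S} (he : e * e = e) (hw : JLe e w) :
    (e * w * e) ^ (k + 1) = e := by
  have h1 : JLe e (e * w * e) := jle_mul h (jle_mul h (JLe.refl e) hw) (JLe.refl e)
  obtain ⟨p, q, hpq⟩ := h1
  set u := e * w * e with hu
  have heu : e * u = u := by rw [hu]; simp only [← mul_assoc, he]
  have hue : u * e = u := by rw [hu]; simp only [mul_assoc, he]
  let p' := e * p * e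
  let q' := e * q * e
  have hp' : p' * e = p' := by show e * p * e * e = _; rw [mul_assoc, he]
  have hq' : q' * e = q' := by show e * q * e * e = _; rw [mul_assoc, he]
  have heq' : e * q' = q' := by
    show e * (e * q * e) = _
    rw [← mul_assoc, ← mul_assoc, he]
  have h2 : p' * (u * q') = e := by
    show e * p * e * (u * (e * q * e)) = e
    calc e * p * e * (u * (e * q * e)) = e * (p * ((e * u) * e) * q) * e := by
          simp only [mul_assoc]
      _ = e * e * e := by rw [heu, hue, ← hpq]
      _ = e := by rw [he, he]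
  have h3 : p' ^ (k + 1) = e := pow_right_inv h hp' h2
  have h4 : u * (q' * p') = e := by
    calc u * (q' * p') = e * u * (q' * p') := by rw [heu]
      _ = p' ^ (k + 1) * u * (q' * p') := by rw [h3]
      _ = p' ^ k * (p' * (u * q')) * p' := by rw [pow_succ]; simp only [mul_assoc]
      _ = p' ^ k * (e * p') := by rw [h2, mul_assoc]
      _ = p' ^ k * p' := by
        congr 1
        show e * (e * p * e) = e * p * e
        rw [← mul_assoc, ← mul_assoc, he]
      _ = e := by rw [← pow_succ, h3]
  exact pow_right_inv h hue h4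

end Mon

/-- the generating pairs of the congruence -/
def rel (A : Type) (n m : ℕ) : FreeMonoid A → FreeMonoid A → Prop :=
  fun a b => ∃ x : FreeMonoid A, a = x ^ n ∧ b = x ^ (n + m)

theorem quot_pow {A : Type} (m : ℕ) (x : (conGen (rel A 1 m)).Quotient) :
    x ^ (m + 1) = x := by
  induction x using Con.induction_on with
  | H w =>
    have h : (conGen (rel A 1 m)) (w ^ 1) (w ^ (1 + m)) := Con.le_conGen _ _ ⟨w, rfl, rfl⟩
    have h2 := (Con.eq (conGen (rel A 1 m))).2 h
    rw [pow_one, add_comm] at h2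
    exact h2.symm

end Pool.Agent.K7x.Brz
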