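import Pool.Agent.K7x.BrzA
import Pool.Agent.TH54.BU.Iter
import Pool.Agent.TH54.BU.Inf

/-!
# A class of the congruence of `x = x ^ (m + 1)` which is not regular, from an infinite group of
exponent `m`
-/

set_option autoImplicit false

namespace Pool.Agent.K7x.Brz

open Pool.Agent.TH54.BU

/-- the words in two letters -/
abbrev W2 := FreeMonoid (Fin 2)

/-- the word `x y` -/
def xy : W2 := FreeMonoid.of 0 * FreeMonoid.of 1

theorem coe_pow {M : Type*} [Monoid M] (c : Con M) (w : M) (n : ℕ) :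
    ((w ^ n : M) : c.Quotient) = (w : c.Quotient) ^ n := map_pow c.mk' w n

theorem idem (k : ℕ) : ((xy ^ (k + 1) : W2) : (conGen (rel (Fin 2) 1 (k + 1))).Quotient) *
    ((xy ^ (k + 1) : W2) : (conGen (rel (Fin 2) 1 (k + 1))).Quotient) =
    ((xy ^ (k + 1) : W2) : (conGen (rel (Fin 2) 1 (k + 1))).Quotient) := by
  have h := quot_pow (k + 1) (A := Fin 2) (xy : W2)
  rw [coe_pow]
  generalize ((xy : W2) : (conGen (rel (Fin 2) 1 (k + 1))).Quotient) = s at h
  calc s ^ (k + 1) * s ^ (k + 1) = s ^ (k + 1 + 1) * s ^ k := by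
        rw [← pow_add, ← pow_add]; congr 1; ring
    _ = s ^ (k + 1) := by rw [h, pow_succ']

theorem jle_word (k : ℕ) (w : W2) :
    JLe ((xy ^ (k + 1) : W2) : (conGen (rel (Fin 2) 1 (k + 1))).Quotient)
      ((w : W2) : (conGen (rel (Fin 2) 1 (k + 1))).Quotient) := by
  have h : ∀ x : (conGen (rel (Fin 2) 1 (k + 1))).Quotient, x ^ (k + 2) = x :=
    fun x => quot_pow (k + 1) x
  induction w using FreeMonoid.recOn with
  | one => exact ⟨((xy ^ (k + 1) : W2) : (conGen (rel (Fin 2) 1 (k + 1))).Quotient), 1, by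
      rw [Con.coe_one, mul_one, mul_one]⟩
  | of_mul a w ih =>
    rw [Con.coe_mul]
    refine jle_mul h ?_ ih
    fin_cases a
    · refine ⟨1, ((FreeMonoid.of 1 * xy ^ k : W2) : (conGen (rel (Fin 2) 1 (k + 1))).Quotient), ?_⟩
      rw [one_mul, ← Con.coe_mul, pow_succ', xy, mul_assoc]
      rfl
    · refine ⟨((FreeMonoid.of 0 : W2) : (conGen (rel (Fin 2) 1 (k + 1))).Quotient),
        ((xy ^ k : W2) : (conGen (rel (Fin 2) 1 (k + 1))).Quotient), ?_⟩
      rw [← Con.coe_mul, ← Con.coe_mul, pow_succ']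
      rfl

theorem pow_exp {p : ℕ} (g : FreeGroup (Fin 2) ⧸ powSub (FreeGroup (Fin 2)) p) : g ^ p = 1 := by
  induction g using QuotientGroup.induction_on with
  | H g =>
    rw [← QuotientGroup.mk_pow, QuotientGroup.eq_one_iff]
    exact Subgroup.subset_normalClosure ⟨g, rfl⟩

/-- the evaluation of the words in the free group of exponent `p` -/
def Phi (p : ℕ) : W2 →* FreeGroup (Fin 2) ⧸ powSub (FreeGroup (Fin 2)) p :=
  FreeMonoid.lift (fun i => (FreeGroup.of i : FreeGroup (Fin 2) ⧸ powSub (FreeGroup (Fin 2)) p))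

theorem Phi_surj (p : ℕ) (hp : 0 < p) : Function.Surjective (Phi p) := by
  intro g
  induction g using QuotientGroup.induction_on with
  | H g =>
    induction g using FreeGroup.induction_on with
    | C1 => exact ⟨1, by rw [map_one]; rfl⟩
    | of i => exact ⟨FreeMonoid.of i, by rw [Phi, FreeMonoid.lift_eval_of]⟩
    | inv_of i _ =>
      refine ⟨FreeMonoid.of i ^ (p - 1), ?_⟩
      rw [map_pow, Phi, FreeMonoid.lift_eval_of, QuotientGroup.mk_inv]
      apply eq_inv_of_mul_eq_one_left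
      rw [← pow_succ, Nat.sub_add_cancel hp, pow_exp]
    | mul x y hx hy =>
      obtain ⟨a, ha⟩ := hx
      obtain ⟨b, hb⟩ := hy
      exact ⟨a * b, by rw [map_mul, ha, hb, QuotientGroup.mk_mul]⟩

theorem Phi_con (p : ℕ) {a b : W2} (h : conGen (rel (Fin 2) 1 p) a b) : Phi p a = Phi p b := by
  have h1 : conGen (rel (Fin 2) 1 p) ≤ Con.ker (Phi p) := by
    rw [Con.conGen_le]
    rintro x y ⟨z, rfl, rfl⟩
    rw [Con.ker_rel, map_pow, pow_add, pow_exp, mul_one, pow_one]
  exact h1 h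

/-- **The class of `(x y) ^ p` is not regular** if the free group of exponent `p` on two generators
is infinite. -/
theorem not_regular (k : ℕ)
    (hinf : Infinite (FreeGroup (Fin 2) ⧸ powSub (FreeGroup (Fin 2)) (k + 1)))
    (σ : Type) [Fintype σ] (M : DFA (Fin 2) σ) :
    M.accepts ≠ {v : List (Fin 2) | conGen (rel (Fin 2) 1 (k + 1)) (FreeMonoid.ofList v)
      (xy ^ (k + 1))} := by
  classical
  intro hM
  choose w hw using Phi_surj (k + 1) (Nat.succ_pos k)
  obtain ⟨g, h, hgh, htr⟩ := Finite.exists_ne_map_eq_of_infinite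
    (fun g : FreeGroup (Fin 2) ⧸ powSub (FreeGroup (Fin 2)) (k + 1) =>
      (fun s : σ => M.evalFrom s (FreeMonoid.toList (w g))))
  -- the words
  let E : W2 := xy ^ (k + 1)
  let V : W2 → W2 := fun u => E * u * (E * (E * w g * E) ^ k)
  have hacc : ∀ u : W2, FreeMonoid.toList u ∈ M.accepts ↔
      conGen (rel (Fin 2) 1 (k + 1)) u (xy ^ (k + 1)) := by
    intro u
    rw [hM]
    exact Iff.rfl
  have hVg : conGen (rel (Fin 2) 1 (k + 1)) (V (w g)) (xy ^ (k + 1)) := by
    rw [← Con.eq]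
    have h1 := key (S := (conGen (rel (Fin 2) 1 (k + 1))).Quotient) (k := k)
      (fun x => quot_pow (k + 1) x) (idem k) (jle_word k (w g))
    have h2 : ((V (w g) : W2) : (conGen (rel (Fin 2) 1 (k + 1))).Quotient) =
        (((xy ^ (k + 1) : W2) : (conGen (rel (Fin 2) 1 (k + 1))).Quotient) *
          ((w g : W2) : (conGen (rel (Fin 2) 1 (k + 1))).Quotient) *
          ((xy ^ (k + 1) : W2) : (conGen (rel (Fin 2) 1 (k + 1))).Quotient)) ^ (k + 1) := by
      rw [pow_succ']
      simp only [V, E, Con.coe_mul, coe_pow, mul_assoc]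
    rw [h2, h1]
  have hVh : conGen (rel (Fin 2) 1 (k + 1)) (V (w h)) (xy ^ (k + 1)) := by
    rw [← hacc] at hVg ⊢
    have h1 : ∀ u : W2, FreeMonoid.toList (V u) = FreeMonoid.toList E ++ FreeMonoid.toList u ++
        FreeMonoid.toList (E * (E * w g * E) ^ k) := fun u => rfl
    rw [h1, DFA.mem_accepts] at hVg ⊢
    rw [DFA.eval, DFA.evalFrom_of_append, DFA.evalFrom_of_append] at hVg ⊢
    rw [← congrFun htr]
    exact hVg
  have h1 := Phi_con (k + 1) hVg
  have h2 := Phi_con (k + 1) hVh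
  have h3 := h1.trans h2.symm
  simp only [V, map_mul] at h3
  have h4 := mul_left_cancel (mul_right_cancel h3)
  rw [hw, hw] at h4
  exact hgh h4

end Pool.Agent.K7x.Brz
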