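import Pool.Agent.R789.FPTDefs

/-!
# The property `FPT_n` and a structure with `FPT_1` but without `FPT_2`: the structure

The structure is `ℕ × ℤ/3` with the relation `E` (same first coordinate) and the relation `R`
(the pairs `(x, y)` and `(u, v)` of different points of a class have the same orientation).
-/

set_option autoImplicit false

namespace Pool.Agent.K7x.FPTn

open FirstOrder Language Topology Filter Structure Cardinal
open Pool.Agent.R789.FPT

/-- The property `FPT_n`: every subflow of the flow of `Aut(M)` on the space `S_n(M)` of complete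
`n`-types over `M` contains a fixed point. -/
def HasFPTn (L : FirstOrder.Language.{0, 0}) (M : Type) [L.Structure M] (n : ℕ) : Prop :=
  ∀ X : Set (TypeSpace L M n), X.Nonempty → IsClosed X →
    (∀ g : M ≃[L] M, ∀ p ∈ X, act g p ∈ X) → ∃ p ∈ X, ∀ g : M ≃[L] M, act g p = p

/-- The relation symbols: a binary one and one with four places. -/
inductive Rel : ℕ → Type
  | E : Rel 2
  | R : Rel 4

/-- The language. -/
@[reducible] def Lg : FirstOrder.Language.{0, 0} := ⟨fun _ => Empty, Rel⟩

/-- The underlying set of the structure. -/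
@[reducible] def Ms : Type := ℕ × ZMod 3

/-- `E` says that the first coordinates are equal; `R x y u v` says that `x, y` are different points
of a class, `u, v` are different points of a class, and the two pairs have the same orientation. -/
instance str : Lg.Structure Ms where
  funMap := fun f => Empty.elim f
  RelMap := fun {_} r => match r with
    | .E => fun x => (x 0).1 = (x 1).1
    | .R => fun x => (x 0).1 = (x 1).1 ∧ (x 2).1 = (x 3).1 ∧
        (x 1).2 - (x 0).2 = (x 3).2 - (x 2).2 ∧ (x 0).2 ≠ (x 1).2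

theorem relE (x : Fin 2 → Ms) : RelMap (L := Lg) Rel.E x ↔ (x 0).1 = (x 1).1 := Iff.rfl

theorem relR (x : Fin 4 → Ms) : RelMap (L := Lg) Rel.R x ↔ (x 0).1 = (x 1).1 ∧ (x 2).1 = (x 3).1 ∧
    (x 1).2 - (x 0).2 = (x 3).2 - (x 2).2 ∧ (x 0).2 ≠ (x 1).2 := Iff.rfl

/-- the permutation `(i, b) ↦ (π i, s b + c i)` -/
def permM (π : Equiv.Perm ℕ) (s : (ZMod 3)ˣ) (c : ℕ → ZMod 3) : Ms ≃ Ms where
  toFun x := (π x.1, s * x.2 + c x.1)
  invFun x := (π.symm x.1, ↑s⁻¹ * (x.2 - c (π.symm x.1)))
  left_inv x := by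
    refine Prod.ext (π.symm_apply_apply x.1) ?_
    show (↑s⁻¹ : ZMod 3) * (s * x.2 + c x.1 - c (π.symm (π x.1))) = x.2
    rw [π.symm_apply_apply, add_sub_cancel_right, Units.inv_mul_cancel_left]
  right_inv x := by
    refine Prod.ext (π.apply_symm_apply x.1) ?_
    show (s : ZMod 3) * (↑s⁻¹ * (x.2 - c (π.symm x.1))) + c (π.symm x.1) = x.2
    rw [Units.mul_inv_cancel_left, sub_add_cancel]

/-- the automorphism `(i, b) ↦ (π i, s b + c i)` -/
def aut (π : Equiv.Perm ℕ) (s : (ZMod 3)ˣ) (c : ℕ → ZMod 3) : Ms ≃[Lg] Ms where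
  toEquiv := permM π s c
  map_fun' := fun f => Empty.elim f
  map_rel' := by
    intro n r x
    cases r with
    | E =>
      rw [relE, relE]
      exact π.apply_eq_iff_eq
    | R =>
      rw [relR, relR]
      show (π (x 0).1 = π (x 1).1 ∧ π (x 2).1 = π (x 3).1 ∧
        (s * (x 1).2 + c (x 1).1) - (s * (x 0).2 + c (x 0).1) =
          (s * (x 3).2 + c (x 3).1) - (s * (x 2).2 + c (x 2).1) ∧
        s * (x 0).2 + c (x 0).1 ≠ s * (x 1).2 + c (x 1).1) ↔ _
      rw [π.apply_eq_iff_eq, π.apply_eq_iff_eq]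
      refine and_congr_right fun h1 => and_congr_right fun h2 => ?_
      rw [← h1, ← h2]
      have e1 : (s * (x 1).2 + c (x 0).1) - (s * (x 0).2 + c (x 0).1) =
          (s : ZMod 3) * ((x 1).2 - (x 0).2) := by ring
      have e2 : (s * (x 3).2 + c (x 2).1) - (s * (x 2).2 + c (x 2).1) =
          (s : ZMod 3) * ((x 3).2 - (x 2).2) := by ring
      rw [e1, e2, Units.mul_right_inj, Ne, add_left_inj, Units.mul_right_inj]

theorem aut_apply (π : Equiv.Perm ℕ) (s : (ZMod 3)ˣ) (c : ℕ → ZMod 3) (x : Ms) :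
    aut π s c x = (π x.1, s * x.2 + c x.1) := rfl

theorem three (a b : ZMod 3) (ha : a ≠ 0) (hb : b ≠ 0) : a = b ∨ a = -b := by
  revert a b; decide

theorem unit_cases (a b : ZMod 3) (ha : a ≠ 0) (hb : b ≠ 0) :
    ∃ s : (ZMod 3)ˣ, b = s * a := by
  rcases three b a hb ha with h | h
  · exact ⟨1, by simp [h]⟩
  · exact ⟨-1, by simp [h]⟩

/-- facts on an embedding of a substructure -/
theorem emb_facts {S : Lg.Substructure Ms} (f : S ↪[Lg] Ms) :
    (∀ x y : S, (f x).1 = (f y).1 ↔ (x : Ms).1 = (y : Ms).1) ∧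
    (∀ x y u v : S, (x : Ms).1 = (y : Ms).1 → (u : Ms).1 = (v : Ms).1 →
      (x : Ms).2 ≠ (y : Ms).2 → (y : Ms).2 - (x : Ms).2 = (v : Ms).2 - (u : Ms).2 →
      (f y).2 - (f x).2 = (f v).2 - (f u).2 ∧ (f x).2 ≠ (f y).2) := by
  constructor
  · intro x y
    have h := f.map_rel Rel.E ![x, y]
    rw [← S.subtype.map_rel, relE, relE] at h
    exact h
  · intro x y u v h1 h2 h3 h4
    have h := f.map_rel Rel.R ![x, y, u, v]
    rw [← S.subtype.map_rel, relR, relR] at h
    exact (h.mpr ⟨h1, h2, h4, h3⟩).2.2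

theorem ultra : Lg.IsUltrahomogeneous Ms := by
  classical
  intro S hS f
  have : Lg.IsRelational := fun _ => inferInstanceAs (IsEmpty Empty)
  have hfin : Finite S := Substructure.fg_iff_finite.1 hS
  obtain ⟨h1, h2⟩ := emb_facts f
  -- the sign
  have hsign : ∃ s : (ZMod 3)ˣ, ∀ x y : S, (x : Ms).1 = (y : Ms).1 →
      (f y).2 - (f x).2 = s * ((y : Ms).2 - (x : Ms).2) := by
    by_cases hc : ∃ x y : S, (x : Ms).1 = (y : Ms).1 ∧ (x : Ms).2 ≠ (y : Ms).2
    · obtain ⟨x, y, hxy, hne⟩ := hc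
      have hne' := (h2 x y x y hxy hxy hne rfl).2
      obtain ⟨s, hs⟩ := unit_cases ((y : Ms).2 - (x : Ms).2) ((f y).2 - (f x).2)
        (sub_ne_zero.2 (Ne.symm hne)) (sub_ne_zero.2 (Ne.symm hne'))
      refine ⟨s, fun u v huv => ?_⟩
      by_cases he : (u : Ms).2 = (v : Ms).2
      · have : u = v := Subtype.ext (Prod.ext huv he)
        subst this
        simp
      · rcases three ((y : Ms).2 - (x : Ms).2) ((v : Ms).2 - (u : Ms).2)
          (sub_ne_zero.2 (Ne.symm hne)) (sub_ne_zero.2 (Ne.symm he)) with h | h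
        · rw [← (h2 x y u v hxy huv hne h).1, hs, h]
        · have h' : (y : Ms).2 - (x : Ms).2 = (u : Ms).2 - (v : Ms).2 := by rw [h]; ring
          have h3 := (h2 x y v u hxy huv.symm hne h').1
          have h4 : (f v).2 - (f u).2 = -((f u).2 - (f v).2) := by ring
          rw [h4, ← h3, hs, h]
          ring
    · push Not at hc
      refine ⟨1, fun u v huv => ?_⟩
      have : u = v := Subtype.ext (Prod.ext huv (hc u v huv))
      subst this
      simp
  obtain ⟨s, hs⟩ := hsign
  -- the permutation of the classes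
  let T : Set ℕ := Set.range (fun x : S => (x : Ms).1)
  have hT : ∀ i : T, ∃ x : S, (x : Ms).1 = i := fun i => i.2
  choose rep hrep using hT
  let τ : T ↪ ℕ := ⟨fun i => (f (rep i)).1, fun i j hij => by
    have := (h1 _ _).1 hij
    rw [hrep, hrep] at this
    exact Subtype.ext this⟩
  have hTfin : T.Finite := Set.finite_range _
  obtain ⟨π, hπ⟩ := Cardinal.extend_function_of_lt τ
    (by rw [Cardinal.mk_nat]; exact hTfin.lt_aleph0) ⟨Equiv.refl ℕ⟩
  let c : ℕ → ZMod 3 := fun i => if h : i ∈ T then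
    (f (rep ⟨i, h⟩)).2 - s * (rep ⟨i, h⟩ : Ms).2 else 0
  refine ⟨aut π s c, ?_⟩
  refine DFunLike.ext _ _ fun x => ?_
  show f x = aut π s c (x : Ms)
  rw [aut_apply]
  have hx : (x : Ms).1 ∈ T := ⟨x, rfl⟩
  have hr : ((rep ⟨(x : Ms).1, hx⟩ : S) : Ms).1 = (x : Ms).1 := hrep ⟨(x : Ms).1, hx⟩
  refine Prod.ext ?_ ?_
  · show (f x).1 = π (x : Ms).1
    rw [hπ ⟨(x : Ms).1, hx⟩]
    exact ((h1 _ _).2 hr).symm
  · show (f x).2 = s * (x : Ms).2 + c (x : Ms).1
    have h3 := hs _ x hr
    simp only [c, hx, dif_pos]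
    linear_combination h3

theorem fraisse : IsFraisseStructure Lg Ms where
  relational := fun _ => inferInstanceAs (IsEmpty Empty)
  countable_language := by
    have : Function.Surjective (fun b : Bool => (match b with
      | false => ⟨2, Rel.E⟩
      | true => ⟨4, Rel.R⟩ : Σ n, Lg.Relations n)) := by
      rintro ⟨n, r⟩
      cases r with
      | E => exact ⟨false, rfl⟩
      | R => exact ⟨true, rfl⟩
    exact this.countable
  countable := inferInstance
  infinite := inferInstance
  ultrahomogeneous := ultra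

end Pool.Agent.K7x.FPTn
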