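import Pool.Agent.K7x.FPTnA

/-!
# The structure has `FPT_1`
-/

set_option autoImplicit false

namespace Pool.Agent.K7x.FPTn

open FirstOrder Language Topology Filter Structure Cardinal
open Pool.Agent.R789.FPT

/-- the solutions in the structure of a formula in one variable with parameters -/
def sol (φ : Lg.Formula (Ms ⊕ Fin 1)) : Set Ms := {x | φ.Realize (Sum.elim id (fun _ => x))}

/-- the truth value of a formula depends only on the values of its free variables -/
theorem realize_congr_free {L : FirstOrder.Language.{0, 0}} {N : Type} [L.Structure N] {α : Type}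
    [DecidableEq α] (φ : L.Formula α) (v w : α → N)
    (h : ∀ a ∈ BoundedFormula.freeVarFinset φ, v a = w a) : φ.Realize v ↔ φ.Realize w := by
  have h1 := BoundedFormula.realize_restrictFreeVar' (φ := φ)
    (s := ((BoundedFormula.freeVarFinset φ : Finset α) : Set α)) (le_refl _) (v := v)
    (xs := (default : Fin 0 → N))
  have h2 := BoundedFormula.realize_restrictFreeVar' (φ := φ)
    (s := ((BoundedFormula.freeVarFinset φ : Finset α) : Set α)) (le_refl _) (v := w)
    (xs := (default : Fin 0 → N))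
  have e : (v ∘ (Subtype.val : ((BoundedFormula.freeVarFinset φ : Finset α) : Set α) → α)) =
      w ∘ Subtype.val := by
    funext a
    exact h a.1 a.2
  rw [e] at h1
  exact h1.symm.trans h2

theorem mem_sol_congr (φ : Lg.Formula (Ms ⊕ Fin 1)) : ∃ T : Finset ℕ, ∀ x y : Ms,
    x.1 ∉ T → y.1 ∉ T → (x ∈ sol φ ↔ y ∈ sol φ) := by
  classical
  refine ⟨(BoundedFormula.freeVarFinset φ).image
    (fun z => match z with
      | .inl m => m.1
      | .inr _ => 0), fun x y hx hy => ?_⟩
  let c : ℕ → ZMod 3 := fun k => if k = x.1 then y.2 - x.2 else 0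
  let g := aut (Equiv.swap x.1 y.1) 1 c
  have hgx : g x = y := by
    show aut (Equiv.swap x.1 y.1) 1 c x = y
    rw [aut_apply]
    refine Prod.ext (Equiv.swap_apply_left _ _) ?_
    simp [c]
  show φ.Realize _ ↔ φ.Realize _
  rw [← StrongHomClass.realize_formula g φ]
  apply realize_congr_free
  intro z hz
  rcases z with m | j
  · show g m = m
    have hm : m.1 ∈ (BoundedFormula.freeVarFinset φ).image
      (fun z => match z with
        | .inl m => m.1
        | .inr _ => 0) := Finset.mem_image.2 ⟨Sum.inl m, hz, rfl⟩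
    have h1 : m.1 ≠ x.1 := fun h => hx (h ▸ hm)
    have h2 : m.1 ≠ y.1 := fun h => hy (h ▸ hm)
    show aut (Equiv.swap x.1 y.1) 1 c m = m
    rw [aut_apply]
    refine Prod.ext (Equiv.swap_apply_of_ne_of_ne h1 h2) ?_
    simp [c, h1]
  · exact hgx

theorem fin_set (T : Finset ℕ) : {x : Ms | x.1 ∈ T}.Finite := by
  have : {x : Ms | x.1 ∈ T} = (T : Set ℕ) ×ˢ (Set.univ : Set (ZMod 3)) := by
    ext x
    simp
  rw [this]
  exact T.finite_toSet.prod Set.finite_univ

theorem fin_or_cofin (φ : Lg.Formula (Ms ⊕ Fin 1)) : (sol φ).Finite ∨ (sol φ)ᶜ.Finite := by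
  obtain ⟨T, hT⟩ := mem_sol_congr φ
  by_cases h : ∃ x ∈ sol φ, x.1 ∉ T
  · obtain ⟨x, hx, hxT⟩ := h
    right
    refine (fin_set T).subset fun y hy => ?_
    by_contra hyT
    exact hy ((hT x y hxT hyT).1 hx)
  · push Not at h
    left
    exact (fin_set T).subset fun y hy => h y hy

/-- the formula `v = x` -/
def eqf (x : Ms) : Lg.Formula (Ms ⊕ Fin 1) :=
  Term.equal (Term.var (Sum.inr 0)) (Term.var (Sum.inl x))

theorem not_realize_of_finite (φ : Lg.Formula (Ms ⊕ Fin 1)) (hφ : (sol φ).Finite) {N : Type}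
    [Lg.Structure N] (f : Ms ↪ₑ[Lg] N) (a : Fin 1 → N) (ha : a 0 ∉ Set.range f) :
    ¬ φ.Realize (Sum.elim f a) := by
  intro hr
  have : Finite (sol φ) := hφ
  let ψ : Lg.Formula (Ms ⊕ Fin 1) := φ ⊓ Formula.iInf (fun m : sol φ => (eqf m).not)
  have h1 : ¬ (ψ.iExs (Fin 1)).Realize (id : Ms → Ms) := by
    rw [Formula.realize_iExs]
    rintro ⟨i, hi⟩
    rw [Formula.realize_inf, Formula.realize_iInf] at hi
    have hi0 : i = fun _ => i 0 := by
      funext j
      rw [Subsingleton.elim j 0]
    have hm : i 0 ∈ sol φ := by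
      show φ.Realize _
      rw [← hi0]
      exact hi.1
    have := hi.2 ⟨i 0, hm⟩
    rw [Formula.realize_not, eqf, Formula.realize_equal] at this
    exact this rfl
  apply h1
  rw [← f.map_formula, Formula.realize_iExs]
  refine ⟨a, ?_⟩
  rw [Formula.realize_inf, Formula.realize_iInf]
  refine ⟨hr, fun m => ?_⟩
  rw [Formula.realize_not, eqf, Formula.realize_equal]
  intro h
  exact ha ⟨m, h.symm⟩

theorem mem_iff_of_out (φ : Lg.Formula (Ms ⊕ Fin 1)) {N : Type}
    [Lg.Structure N] (f : Ms ↪ₑ[Lg] N) (a : Fin 1 → N) (ha : a 0 ∉ Set.range f) :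
    φ.Realize (Sum.elim f a) ↔ (sol φ).Infinite := by
  constructor
  · intro h hf
    exact not_realize_of_finite φ hf f a ha h
  · intro h
    have h1 : (sol φ.not).Finite := by
      have : sol φ.not = (sol φ)ᶜ := by
        ext x
        show (φ.not).Realize _ ↔ ¬ φ.Realize _
        rw [Formula.realize_not]
      rw [this]
      exact (fin_or_cofin φ).resolve_left h
    have h2 := not_realize_of_finite φ.not h1 f a ha
    rw [Formula.realize_not, not_not] at h2
    exact h2

theorem sol_relabel (g : Ms ≃[Lg] Ms) (φ : Lg.Formula (Ms ⊕ Fin 1)) :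
    sol (φ.relabel (Sum.map g.symm id)) = g ⁻¹' (sol φ) := by
  ext x
  show (φ.relabel (Sum.map g.symm id)).Realize _ ↔ φ.Realize _
  rw [Formula.realize_relabel, ← StrongHomClass.realize_formula g φ]
  have : (g ∘ (Sum.elim id (fun _ => x) ∘ Sum.map g.symm id) : Ms ⊕ Fin 1 → Ms) =
      Sum.elim id (fun _ => g x) := by
    funext z
    rcases z with m | j
    · exact g.toEquiv.apply_symm_apply m
    · rfl
  rw [this]

/-- the type of a point outside the structure is fixed -/
theorem fixed_of_out (q : TypeSpace Lg Ms 1) {N : Type} [Lg.Structure N]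
    (f : Ms ↪ₑ[Lg] N) (a : Fin 1 → N) (hq : q.1 = {φ | φ.Realize (Sum.elim f a)})
    (ha : a 0 ∉ Set.range f) (g : Ms ≃[Lg] Ms) : act g q = q := by
  apply Subtype.ext
  show {φ | φ.relabel (Sum.map g.symm id) ∈ q.1} = q.1
  rw [hq]
  ext φ
  show (φ.relabel (Sum.map g.symm id)).Realize (Sum.elim f a) ↔ φ.Realize (Sum.elim f a)
  rw [mem_iff_of_out _ f a ha, mem_iff_of_out _ f a ha, sol_relabel]
  refine not_congr ⟨fun h => ?_, fun h => ?_⟩
  · exact Set.Finite.of_preimage h g.toEquiv.surjective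
  · exact h.preimage g.toEquiv.injective.injOn

/-- the type over the structure of a point of the structure -/
def tp (x : Ms) : TypeSpace Lg Ms 1 :=
  ⟨{φ | φ.Realize (Sum.elim id (fun _ => x))}, Ms, inferInstance,
    ElementaryEmbedding.refl Lg Ms, fun _ => x, rfl⟩

theorem mem_tp (φ : Lg.Formula (Ms ⊕ Fin 1)) (x : Ms) : φ ∈ (tp x).1 ↔ x ∈ sol φ := Iff.rfl

theorem act_tp (g : Ms ≃[Lg] Ms) (x : Ms) : act g (tp x) = tp (g x) := by
  apply Subtype.ext
  ext φ
  show x ∈ sol (φ.relabel (Sum.map g.symm id)) ↔ g x ∈ sol φ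
  rw [sol_relabel]
  rfl

theorem fpt_one : HasFPTn Lg Ms 1 := by
  intro X hne hcl hinv
  obtain ⟨p, hp⟩ := hne
  obtain ⟨N, iN, f, a, hpe⟩ := p.2
  by_cases ha : a 0 ∈ Set.range f
  · obtain ⟨m, hm⟩ := ha
    have hpm : p = tp m := by
      apply Subtype.ext
      rw [hpe]
      ext φ
      show φ.Realize (Sum.elim (⇑f) a) ↔ φ.Realize (Sum.elim id (fun _ => m))
      rw [← f.map_formula φ]
      have : (f ∘ Sum.elim id (fun _ : Fin 1 => m)) = Sum.elim (⇑f) a := by
        funext z
        rcases z with m' | j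
        · rfl
        · show f m = a j
          rw [hm, Subsingleton.elim j 0]
      rw [this]
    have horb : ∀ i : ℕ, tp (i, 0) ∈ X := by
      intro i
      have h := hinv (aut (Equiv.swap m.1 i) 1 (fun _ => -m.2)) p hp
      rw [hpm, act_tp, aut_apply, Equiv.swap_apply_left] at h
      simpa using h
    let U : Ultrafilter ℕ := hyperfilter ℕ
    let NS : Type := (U : Filter ℕ).Product (fun _ : ℕ => Ms)
    have los : ∀ {β : Type} (φ : Lg.Formula β) (x : β → ∀ _ : ℕ, Ms),
        (φ.Realize (fun b => ((x b : ∀ _ : ℕ, Ms) : (U : Filter ℕ).Product (fun _ : ℕ => Ms)))) ↔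
          ∀ᶠ i in (U : Filter ℕ), φ.Realize (fun b => x b i) := by
      intro β φ x
      exact Ultraproduct.realize_formula_cast (u := U) (M := fun _ : ℕ => Ms) φ x
    let F : Ms → (∀ _ : ℕ, Ms) := fun m _ => m
    let fs : Ms ↪ₑ[Lg] NS :=
      { toFun := fun m => ((F m : ∀ _ : ℕ, Ms) : (U : Filter ℕ).Product (fun _ : ℕ => Ms))
        map_formula' := by
          intro n φ x
          have h := los φ (fun b => F (x b))
          refine Iff.trans h ?_
          show (∀ᶠ _ in (U : Filter ℕ), φ.Realize x) ↔ φ.Realize x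
          exact eventually_const }
    let s : ∀ _ : ℕ, Ms := fun i => (i, 0)
    let as : Fin 1 → NS := fun _ => (s : (U : Filter ℕ).Product (fun _ : ℕ => Ms))
    let q : TypeSpace Lg Ms 1 :=
      ⟨{φ | φ.Realize (Sum.elim fs as)}, NS, inferInstance, fs, as, rfl⟩
    have hq : ∀ φ : Lg.Formula (Ms ⊕ Fin 1), φ ∈ q.1 ↔
        ∀ᶠ i in (U : Filter ℕ), φ ∈ (tp (i, 0)).1 := by
      intro φ
      have h := los φ (Sum.elim F (fun _ => s))
      have e1 : (fun b => ((Sum.elim F (fun _ : Fin 1 => s) b : ∀ _ : ℕ, Ms) :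
          (U : Filter ℕ).Product (fun _ : ℕ => Ms))) = Sum.elim fs as := by
        funext b
        rcases b with m | j <;> rfl
      rw [e1] at h
      refine Iff.trans h ?_
      have e2 : ∀ i : ℕ, (fun b => Sum.elim F (fun _ : Fin 1 => s) b i) =
          Sum.elim id (fun _ => ((i, 0) : Ms)) := by
        intro i
        funext b
        rcases b with m | j <;> rfl
      simp only [e2]
      exact Iff.rfl
    have htend : Tendsto (fun i : ℕ => tp (i, 0)) (U : Filter ℕ) (𝓝 q) := by
      rw [TopologicalSpace.tendsto_nhds_generateFrom_iff]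
      rintro s ⟨φ, rfl⟩ hqs
      exact (hq φ).mp hqs
    have hqX : q ∈ X := hcl.mem_of_tendsto htend (Eventually.of_forall horb)
    refine ⟨q, hqX, fun g => fixed_of_out q fs as rfl ?_ g⟩
    rintro ⟨m, hm⟩
    have h1 : ∀ᶠ i in (U : Filter ℕ), F m i = s i := by
      have := Quotient.exact hm
      exact this
    have h2 : {i : ℕ | F m i = s i}.Subsingleton := by
      intro i hi i' hi'
      have h3 : m = (i, 0) := hi
      have h4 : m = (i', 0) := hi'
      exact congrArg Prod.fst (h3.symm.trans h4)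
    exact notMem_hyperfilter_of_finite h2.finite h1
  · exact ⟨p, hp, fun g => fixed_of_out p f a hpe ha g⟩

end Pool.Agent.K7x.FPTn
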