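import Pool.Agent.K7x.FPTnB

/-!
# The structure does not have `FPT_2`
-/

set_option autoImplicit false

namespace Pool.Agent.K7x.FPTn

open FirstOrder Language Topology Filter Structure Cardinal
open Pool.Agent.R789.FPT

theorem isClosed_mem {n : ℕ} (φ : Lg.Formula (Ms ⊕ Fin n)) :
    IsClosed {p : TypeSpace Lg Ms n | φ ∈ p.1} := by
  rw [← isOpen_compl_iff]
  apply TopologicalSpace.isOpen_generateFrom_of_mem
  refine ⟨φ.not, ?_⟩
  ext p
  obtain ⟨N, iN, f, a, hp⟩ := p.2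
  simp only [Set.mem_compl_iff, Set.mem_ofPred_eq]
  rw [hp]
  simp only [Set.mem_ofPred_eq, Formula.realize_not]

theorem univ {n : ℕ} (ψ : Lg.Formula (Ms ⊕ Fin n)) (h : ∀ i : Fin n → Ms, ψ.Realize (Sum.elim id i))
    {N : Type} [Lg.Structure N] (f : Ms ↪ₑ[Lg] N) (a : Fin n → N) : ψ.Realize (Sum.elim f a) := by
  have h1 : (ψ.iAlls (Fin n)).Realize (id : Ms → Ms) := by
    rw [Formula.realize_iAlls]
    exact h
  rw [← f.map_formula, Formula.realize_iAlls] at h1
  exact h1 a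

/-- the formula `E(x, y)` -/
def fE : Lg.Formula (Ms ⊕ Fin 2) :=
  Relations.formula (L := Lg) (n := 2) Rel.E ![Term.var (Sum.inr 0), Term.var (Sum.inr 1)]

/-- the formula `x ≠ y` -/
def fN : Lg.Formula (Ms ⊕ Fin 2) :=
  (Term.equal (Term.var (Sum.inr 0)) (Term.var (Sum.inr 1))).not

/-- the formula `R(x, y, u, v)` with parameters `u, v` -/
def fR (u v : Ms) : Lg.Formula (Ms ⊕ Fin 2) :=
  Relations.formula (L := Lg) (n := 4) Rel.R
    ![Term.var (Sum.inr 0), Term.var (Sum.inr 1), Term.var (Sum.inl u), Term.var (Sum.inl v)]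

theorem realize_fE {N : Type} [Lg.Structure N] (v : Ms ⊕ Fin 2 → N) :
    fE.Realize v ↔ RelMap (L := Lg) Rel.E ![v (Sum.inr 0), v (Sum.inr 1)] := by
  rw [fE, Formula.realize_rel]
  have : (fun i => (![Term.var (Sum.inr 0), Term.var (Sum.inr 1)] :
      Fin 2 → Lg.Term (Ms ⊕ Fin 2)) i |>.realize v) = ![v (Sum.inr 0), v (Sum.inr 1)] := by
    funext i; fin_cases i <;> rfl
  rw [this]

theorem realize_fN {N : Type} [Lg.Structure N] (v : Ms ⊕ Fin 2 → N) :
    fN.Realize v ↔ v (Sum.inr 0) ≠ v (Sum.inr 1) := by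
  rw [fN, Formula.realize_not, Formula.realize_equal]
  rfl

theorem realize_fR (x y : Ms) {N : Type} [Lg.Structure N] (v : Ms ⊕ Fin 2 → N) :
    (fR x y).Realize v ↔ RelMap (L := Lg) Rel.R
      ![v (Sum.inr 0), v (Sum.inr 1), v (Sum.inl x), v (Sum.inl y)] := by
  rw [fR, Formula.realize_rel]
  have : (fun i => (![Term.var (Sum.inr 0), Term.var (Sum.inr 1), Term.var (Sum.inl x),
      Term.var (Sum.inl y)] : Fin 4 → Lg.Term (Ms ⊕ Fin 2)) i |>.realize v) =
      ![v (Sum.inr 0), v (Sum.inr 1), v (Sum.inl x), v (Sum.inl y)] := by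
    funext i; fin_cases i <;> rfl
  rw [this]

/-- two points of a class are either in the orientation of `(0,0), (0,1)` or in the other one -/
theorem orient (x y : Ms) (h : x.1 = y.1) (hne : x ≠ y) :
    ¬ ((RelMap (L := Lg) Rel.R ![x, y, ((0, 0) : Ms), ((0, 1) : Ms)]) ↔
      RelMap (L := Lg) Rel.R ![x, y, ((0, 1) : Ms), ((0, 0) : Ms)]) := by
  rw [relR, relR]
  show ¬ ((x.1 = y.1 ∧ (0 : ℕ) = 0 ∧ y.2 - x.2 = 1 - 0 ∧ x.2 ≠ y.2) ↔
    (x.1 = y.1 ∧ (0 : ℕ) = 0 ∧ y.2 - x.2 = 0 - 1 ∧ x.2 ≠ y.2))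
  have hne2 : x.2 ≠ y.2 := fun h2 => hne (Prod.ext h h2)
  simp only [h, hne2, true_and, ne_eq, not_false_eq_true, and_true]
  have key : ∀ a b : ZMod 3, a ≠ b → ¬ (b - a = 1 - 0 ↔ b - a = 0 - 1) := by decide
  exact key _ _ hne2

theorem not_fpt_two : ¬ HasFPTn Lg Ms 2 := by
  intro hF
  let X : Set (TypeSpace Lg Ms 2) := {p | fE ∈ p.1} ∩ {p | fN ∈ p.1}
  have hX : ∃ p ∈ X, ∀ g : Ms ≃[Lg] Ms, act g p = p := by
    apply hF X
    · refine ⟨⟨{φ | φ.Realize (Sum.elim id ![((0, 0) : Ms), (0, 1)])}, Ms, inferInstance,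
        ElementaryEmbedding.refl Lg Ms, ![((0, 0) : Ms), (0, 1)], rfl⟩, ?_, ?_⟩
      · show fE.Realize (Sum.elim id ![((0, 0) : Ms), (0, 1)])
        rw [realize_fE, relE]
        rfl
      · show fN.Realize (Sum.elim id ![((0, 0) : Ms), (0, 1)])
        rw [realize_fN]
        show ((0, 0) : Ms) ≠ (0, 1)
        decide
    · exact (isClosed_mem _).inter (isClosed_mem _)
    · rintro g p ⟨h1, h2⟩
      obtain ⟨N, iN, f, a, hp⟩ := p.2
      refine ⟨?_, ?_⟩
      · show fE.relabel (Sum.map g.symm id) ∈ p.1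
        have h1' : fE ∈ p.1 := h1
        rw [hp] at h1' ⊢
        show (fE.relabel (Sum.map g.symm id)).Realize (Sum.elim f a)
        have h1'' : fE.Realize (Sum.elim f a) := h1'
        rw [Formula.realize_relabel, realize_fE]
        rw [realize_fE] at h1''
        exact h1''
      · show fN.relabel (Sum.map g.symm id) ∈ p.1
        have h1' : fN ∈ p.1 := h2
        rw [hp] at h1' ⊢
        show (fN.relabel (Sum.map g.symm id)).Realize (Sum.elim f a)
        have h1'' : fN.Realize (Sum.elim f a) := h1'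
        rw [Formula.realize_relabel, realize_fN]
        rw [realize_fN] at h1''
        exact h1''
  obtain ⟨p, ⟨hE, hN⟩, hfix⟩ := hX
  obtain ⟨N, iN, f, a, hp⟩ := p.2
  -- the automorphism which changes the orientation
  let g : Ms ≃[Lg] Ms := aut 1 (-1) (fun _ => 1)
  have hg0 : g.symm ((0, 0) : Ms) = (0, 1) := by
    apply g.toEquiv.injective
    show g (g.symm ((0, 0) : Ms)) = g (0, 1)
    have e1 : g (g.symm ((0, 0) : Ms)) = (0, 0) := g.toEquiv.apply_symm_apply _
    rw [e1]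
    show _ = aut 1 (-1) (fun _ => 1) ((0, 1) : Ms)
    rw [aut_apply]
    decide
  have hg1 : g.symm ((0, 1) : Ms) = (0, 0) := by
    apply g.toEquiv.injective
    show g (g.symm ((0, 1) : Ms)) = g (0, 0)
    have e1 : g (g.symm ((0, 1) : Ms)) = (0, 1) := g.toEquiv.apply_symm_apply _
    rw [e1]
    show _ = aut 1 (-1) (fun _ => 1) ((0, 0) : Ms)
    rw [aut_apply]
    decide
  have h1 : (fR (0, 0) (0, 1)).Realize (Sum.elim f a) ↔
      (fR (0, 1) (0, 0)).Realize (Sum.elim f a) := by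
    have h2 : (fR (0, 0) (0, 1)) ∈ (act g p).1 ↔ (fR (0, 0) (0, 1)) ∈ p.1 := by rw [hfix g]
    have h3 : (fR (0, 0) (0, 1)) ∈ (act g p).1 ↔
        ((fR (0, 0) (0, 1)).relabel (Sum.map g.symm id)) ∈ p.1 := Iff.rfl
    rw [h3, hp] at h2
    have h4 : ((fR (0, 0) (0, 1)).relabel (Sum.map g.symm id)).Realize (Sum.elim f a) ↔
        (fR (0, 0) (0, 1)).Realize (Sum.elim f a) := h2
    rw [Formula.realize_relabel, realize_fR] at h4
    rw [← h4, realize_fR]
    show RelMap (L := Lg) Rel.R ![a 0, a 1, f (g.symm (0, 0)), f (g.symm (0, 1))] ↔ _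
    rw [hg0, hg1]
    exact Iff.rfl
  have hE' : fE.Realize (Sum.elim f a) := by
    have : fE ∈ p.1 := hE
    rw [hp] at this
    exact this
  have hN' : fN.Realize (Sum.elim f a) := by
    have : fN ∈ p.1 := hN
    rw [hp] at this
    exact this
  have h5 := univ (fE.imp (fN.imp ((fR (0, 0) (0, 1)).iff (fR (0, 1) (0, 0))).not)) (by
    intro i
    rw [Formula.realize_imp, Formula.realize_imp, Formula.realize_not, Formula.realize_iff,
      realize_fE, realize_fN, realize_fR, realize_fR]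
    intro h1 h2
    exact orient (i 0) (i 1) h1 h2) f a
  rw [Formula.realize_imp, Formula.realize_imp, Formula.realize_not, Formula.realize_iff] at h5
  exact h5 hE' hN' h1

end Pool.Agent.K7x.FPTn
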